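import Mathlib

set_option autoImplicit false

/-!
# The diamond-free fragments of `CK + N + wCD` and `CK + N + C + wCD`

The diamond-free fragment of `L1` is axiomatised by `□(p ∨ q) → ((¬□¬p → □q) → □q)` (read `◇` as
`¬□¬`). The diamond-free fragment of `L2` is not finitely axiomatisable: we define finite frames
`M n` such that every diamond-free theorem of `L2` with fewer than `n` subformulas is valid
in `M n`, but some diamond-free theorem of `L2` is not. In particular the two fragments differ.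
-/

namespace Pool.Agent.Results.MP_1f55c7_lc.BoxFragments

/-- Formulas. -/
inductive Fml : Type
  | var : ℕ → Fml
  | bot : Fml
  | and : Fml → Fml → Fml
  | or : Fml → Fml → Fml
  | imp : Fml → Fml → Fml
  | box : Fml → Fml
  | dia : Fml → Fml
  deriving DecidableEq

namespace Fml

/-- Negation. -/
def neg (φ : Fml) : Fml := imp φ bot

/-- Uniform substitution. -/
def subst (s : ℕ → Fml) : Fml → Fml
  | var n => s n
  | bot => bot
  | and φ ψ => and (subst s φ) (subst s ψ)
  | or φ ψ => or (subst s φ) (subst s ψ)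
  | imp φ ψ => imp (subst s φ) (subst s ψ)
  | box φ => box (subst s φ)
  | dia φ => dia (subst s φ)

/-- Formulas without diamonds. -/
def DiaFree : Fml → Prop
  | var _ => True
  | bot => True
  | and φ ψ => DiaFree φ ∧ DiaFree ψ
  | or φ ψ => DiaFree φ ∧ DiaFree ψ
  | imp φ ψ => DiaFree φ ∧ DiaFree ψ
  | box φ => DiaFree φ
  | dia _ => False

end Fml

open Fml

/-- `Der Ax φ`: the formula `φ` is a theorem of `CK_□ ⊕ Ax`, i.e. it belongs to the least set that
contains the axioms of intuitionistic propositional logic, `K_□` and `Ax`, and is closed under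
modus ponens, necessitation and uniform substitution. -/
inductive Der (Ax : Set Fml) : Fml → Prop
  | ax {φ : Fml} : φ ∈ Ax → Der Ax φ
  | k (φ ψ : Fml) : Der Ax (imp φ (imp ψ φ))
  | s (φ ψ χ : Fml) : Der Ax (imp (imp φ (imp ψ χ)) (imp (imp φ ψ) (imp φ χ)))
  | andI (φ ψ : Fml) : Der Ax (imp φ (imp ψ (and φ ψ)))
  | andL (φ ψ : Fml) : Der Ax (imp (and φ ψ) φ)
  | andR (φ ψ : Fml) : Der Ax (imp (and φ ψ) ψ)
  | orL (φ ψ : Fml) : Der Ax (imp φ (or φ ψ))
  | orR (φ ψ : Fml) : Der Ax (imp ψ (or φ ψ))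
  | orE (φ ψ χ : Fml) : Der Ax (imp (imp φ χ) (imp (imp ψ χ) (imp (or φ ψ) χ)))
  | efq (φ : Fml) : Der Ax (imp bot φ)
  | kbox (φ ψ : Fml) : Der Ax (imp (box (imp φ ψ)) (imp (box φ) (box ψ)))
  | mp {φ ψ : Fml} : Der Ax φ → Der Ax (imp φ ψ) → Der Ax ψ
  | nec {φ : Fml} : Der Ax φ → Der Ax (box φ)
  | sub (s : ℕ → Fml) {φ : Fml} : Der Ax φ → Der Ax (subst s φ)

/-- `K_◇`. -/
def Kdia : Fml := imp (box (imp (var 0) (var 1))) (imp (dia (var 0)) (dia (var 1)))

/-- `N_◇`. -/
def Ndia : Fml := imp (dia bot) bot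

/-- `C_◇`. -/
def Cdia : Fml := imp (dia (or (var 0) (var 1))) (or (dia (var 0)) (dia (var 1)))

/-- `wCD`. -/
def wCD : Fml :=
  imp (box (or (var 0) (var 1))) (imp (imp (dia (var 0)) (box (var 1))) (box (var 1)))

/-- `L1 = CK ⊕ N_◇ ⊕ wCD`. -/
def L1 : Set Fml := {φ | Der {Kdia, Ndia, wCD} φ}

/-- `L2 = CK ⊕ N_◇ ⊕ wCD ⊕ C_◇`. -/
def L2 : Set Fml := {φ | Der {Kdia, Ndia, wCD, Cdia} φ}

/-- The diamond-free fragment of `L` is finitely axiomatisable: it is the set of diamond-free
theorems of `CK_□ ⊕ X` for a finite set `X` of diamond-free formulas. -/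
def FragmentFinAx (L : Set Fml) : Prop :=
  ∃ X : Set Fml, X.Finite ∧ (∀ χ ∈ X, DiaFree χ) ∧ ∀ φ, DiaFree φ → (φ ∈ L ↔ Der X φ)

/-! ### Derivations from assumptions -/

/-- Derivability from assumptions. -/
inductive Prv (Ax Γ : Set Fml) : Fml → Prop
  | hyp {φ : Fml} : φ ∈ Γ → Prv Ax Γ φ
  | thm {φ : Fml} : Der Ax φ → Prv Ax Γ φ
  | mp {φ ψ : Fml} : Prv Ax Γ φ → Prv Ax Γ (imp φ ψ) → Prv Ax Γ ψ

variable {Ax Γ : Set Fml}

theorem Der.refl (φ : Fml) : Der Ax (imp φ φ) :=
  Der.mp (Der.k φ φ) (Der.mp (Der.k φ (imp φ φ)) (Der.s φ (imp φ φ) φ))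

theorem Prv.toDer {φ : Fml} (h : Prv Ax ∅ φ) : Der Ax φ := by
  induction h with
  | hyp h => exact h.elim
  | thm h => exact h
  | mp _ _ ih1 ih2 => exact Der.mp ih1 ih2

theorem Prv.ded {φ ψ : Fml} (h : Prv Ax (insert φ Γ) ψ) : Prv Ax Γ (imp φ ψ) := by
  induction h with
  | @hyp χ h =>
    rcases h with h | h
    · subst h
      exact Prv.thm (Der.refl _)
    · exact Prv.mp (Prv.hyp h) (Prv.thm (Der.k _ _))
  | thm h => exact Prv.mp (Prv.thm h) (Prv.thm (Der.k _ _))
  | mp _ _ ih1 ih2 => exact Prv.mp ih1 (Prv.mp ih2 (Prv.thm (Der.s _ _ _)))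

theorem Prv.orE {φ ψ χ : Fml} (h : Prv Ax Γ (or φ ψ)) (h1 : Prv Ax (insert φ Γ) χ)
    (h2 : Prv Ax (insert ψ Γ) χ) : Prv Ax Γ χ :=
  Prv.mp h (Prv.mp h2.ded (Prv.mp h1.ded (Prv.thm (Der.orE φ ψ χ))))

theorem Prv.efq {φ : Fml} (h : Prv Ax Γ bot) : Prv Ax Γ φ := Prv.mp h (Prv.thm (Der.efq φ))

theorem Prv.orL {φ ψ : Fml} (h : Prv Ax Γ φ) : Prv Ax Γ (or φ ψ) := Prv.mp h (Prv.thm (Der.orL φ ψ))

theorem Prv.orR {φ ψ : Fml} (h : Prv Ax Γ ψ) : Prv Ax Γ (or φ ψ) := Prv.mp h (Prv.thm (Der.orR φ ψ))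

theorem Prv.kbox {φ ψ : Fml} (h : Prv Ax Γ (box (imp φ ψ))) (h' : Prv Ax Γ (box φ)) :
    Prv Ax Γ (box ψ) :=
  Prv.mp h' (Prv.mp h (Prv.thm (Der.kbox φ ψ)))

theorem Prv.nec {φ : Fml} (h : Prv Ax ∅ φ) : Prv Ax Γ (box φ) := Prv.thm (Der.nec h.toDer)

/-- The substitution of two formulas for the variables `0` and `1`. -/
def s2 (a b : Fml) : ℕ → Fml
  | 0 => a
  | _ => b

theorem Prv.kdia (h : Kdia ∈ Ax) {a b : Fml} (h1 : Prv Ax Γ (box (imp a b)))
    (h2 : Prv Ax Γ (dia a)) : Prv Ax Γ (dia b) :=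
  Prv.mp h2 (Prv.mp h1 (Prv.thm (Der.sub (s2 a b) (Der.ax h))))

theorem Prv.cdia (h : Cdia ∈ Ax) {a b : Fml} (h1 : Prv Ax Γ (dia (or a b))) :
    Prv Ax Γ (or (dia a) (dia b)) :=
  Prv.mp h1 (Prv.thm (Der.sub (s2 a b) (Der.ax h)))

theorem Prv.ndia (h : Ndia ∈ Ax) (h1 : Prv Ax Γ (dia bot)) : Prv Ax Γ bot :=
  Prv.mp h1 (Prv.thm (Der.ax h))

theorem Prv.wcd (h : wCD ∈ Ax) {a b : Fml} (h1 : Prv Ax Γ (box (or a b)))
    (h2 : Prv Ax Γ (imp (dia a) (box b))) : Prv Ax Γ (box b) :=
  Prv.mp h2 (Prv.mp h1 (Prv.thm (Der.sub (s2 a b) (Der.ax h))))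

/-- `◇a → ¬□¬a`. -/
theorem dia_imp (h1 : Kdia ∈ Ax) (h2 : Ndia ∈ Ax) (a : Fml) :
    Prv Ax Γ (imp (dia a) (neg (box (neg a)))) := by
  refine Prv.ded (Prv.ded ?_)
  exact Prv.ndia h2 (Prv.kdia h1 (Prv.hyp (Or.inl rfl)) (Prv.hyp (Or.inr (Or.inl rfl))))

/-! ### The fragment of `L1` -/

/-- `□(p ∨ q) → ((¬□¬p → □q) → □q)`. -/
def chi : Fml :=
  imp (box (or (var 0) (var 1))) (imp (imp (neg (box (neg (var 0)))) (box (var 1))) (box (var 1)))

theorem chi_mem : chi ∈ L1 := by
  refine Prv.toDer (Prv.ded (Prv.ded ?_))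
  refine Prv.wcd (by simp) (a := var 0) (Prv.hyp (Or.inr (Or.inl rfl))) (Prv.ded ?_)
  refine Prv.mp (φ := neg (box (neg (var 0)))) ?_ (Prv.hyp (Or.inr (Or.inl rfl)))
  exact Prv.mp (Prv.hyp (Or.inl rfl)) (dia_imp (by simp) (by simp) _)

/-- Reading `◇` as `¬□¬`. -/
def tr : Fml → Fml
  | .var n => var n
  | .bot => bot
  | .and φ ψ => and (tr φ) (tr ψ)
  | .or φ ψ => or (tr φ) (tr ψ)
  | .imp φ ψ => imp (tr φ) (tr ψ)
  | .box φ => box (tr φ)
  | .dia φ => neg (box (neg (tr φ)))

theorem tr_eq {φ : Fml} (h : DiaFree φ) : tr φ = φ := by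
  induction φ with
  | var n => rfl
  | bot => rfl
  | and φ ψ ih1 ih2 => rw [tr, ih1 h.1, ih2 h.2]
  | or φ ψ ih1 ih2 => rw [tr, ih1 h.1, ih2 h.2]
  | imp φ ψ ih1 ih2 => rw [tr, ih1 h.1, ih2 h.2]
  | box φ ih => rw [tr, ih h]
  | dia φ ih => exact h.elim

theorem tr_subst (s : ℕ → Fml) (φ : Fml) : tr (subst s φ) = subst (fun n => tr (s n)) (tr φ) := by
  induction φ <;> simp_all [tr, subst, neg]

theorem der_tr {φ : Fml} (h : Der {Kdia, Ndia, wCD} φ) : Der {chi} (tr φ) := by
  induction h with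
  | @ax φ h =>
    rcases h with h | h | h
    · subst h
      refine Prv.toDer (Prv.ded (Prv.ded (Prv.ded ?_)))
      -- assumptions `□¬q, ¬□¬p, □(p → q)`
      refine Prv.mp (φ := box (neg (var 0))) ?_ (Prv.hyp (Or.inr (Or.inl rfl)))
      refine Prv.kbox (φ := neg (var 1)) ?_ (Prv.hyp (Or.inl rfl))
      refine Prv.kbox (φ := imp (var 0) (var 1)) ?_ (Prv.hyp (Or.inr (Or.inr (Or.inl rfl))))
      refine Prv.nec (Prv.ded (Prv.ded (Prv.ded ?_)))
      exact Prv.mp (Prv.mp (Prv.hyp (Or.inl rfl)) (Prv.hyp (Or.inr (Or.inr (Or.inl rfl)))))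
        (Prv.hyp (Or.inr (Or.inl rfl)))
    · subst h
      refine Prv.toDer (Prv.ded ?_)
      refine Prv.mp (φ := box (neg bot)) ?_ (Prv.hyp (Or.inl rfl))
      exact Prv.nec (Prv.ded (Prv.hyp (Or.inl rfl)))
    · rw [Set.mem_singleton_iff] at h
      subst h
      exact Der.ax rfl
  | k φ ψ => exact Der.k _ _
  | s φ ψ χ => exact Der.s _ _ _
  | andI φ ψ => exact Der.andI _ _
  | andL φ ψ => exact Der.andL _ _
  | andR φ ψ => exact Der.andR _ _
  | orL φ ψ => exact Der.orL _ _
  | orR φ ψ => exact Der.orR _ _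
  | orE φ ψ χ => exact Der.orE _ _ _
  | efq φ => exact Der.efq _
  | kbox φ ψ => exact Der.kbox _ _
  | mp _ _ ih1 ih2 => exact Der.mp ih1 ih2
  | nec _ ih => exact Der.nec ih
  | sub s _ ih =>
    rw [tr_subst]
    exact Der.sub _ ih

theorem Der.trans_ax {A B : Set Fml} (hAB : ∀ φ ∈ A, Der B φ) {φ : Fml} (h : Der A φ) :
    Der B φ := by
  induction h with
  | ax h => exact hAB _ h
  | k φ ψ => exact Der.k _ _
  | s φ ψ χ => exact Der.s _ _ _
  | andI φ ψ => exact Der.andI _ _
  | andL φ ψ => exact Der.andL _ _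
  | andR φ ψ => exact Der.andR _ _
  | orL φ ψ => exact Der.orL _ _
  | orR φ ψ => exact Der.orR _ _
  | orE φ ψ χ => exact Der.orE _ _ _
  | efq φ => exact Der.efq _
  | kbox φ ψ => exact Der.kbox _ _
  | mp _ _ ih1 ih2 => exact Der.mp ih1 ih2
  | nec _ ih => exact Der.nec ih
  | sub s _ ih => exact Der.sub _ ih

theorem L1_sub_L2 : L1 ⊆ L2 := by
  intro φ h
  refine Der.trans_ax (fun ψ hψ => Der.ax ?_) h
  rcases hψ with h | h | h
  · exact Or.inl h
  · exact Or.inr (Or.inl h)
  · exact Or.inr (Or.inr (Or.inl h))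

theorem finAx_L1 : FragmentFinAx L1 := by
  refine ⟨{chi}, Set.finite_singleton _, ?_, ?_⟩
  · intro χ hχ
    rw [Set.mem_singleton_iff] at hχ
    subst hχ
    simp [chi, DiaFree, neg]
  · intro φ hφ
    constructor
    · intro h
      have := der_tr h
      rwa [tr_eq hφ] at this
    · intro h
      refine Der.trans_ax (fun ψ hψ => ?_) h
      rw [Set.mem_singleton_iff] at hψ
      subst hψ
      exact chi_mem

/-! ### Kripke semantics -/

section Sem

variable {W : Type} [Preorder W]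

/-- Forcing; `S` is used for the box and `R` for the diamond. -/
def force (S R : W → W → Prop) (V : ℕ → W → Prop) : Fml → W → Prop
  | .var n, x => V n x
  | .bot, _ => False
  | .and φ ψ, x => force S R V φ x ∧ force S R V ψ x
  | .or φ ψ, x => force S R V φ x ∨ force S R V ψ x
  | .imp φ ψ, x => ∀ y, x ≤ y → force S R V φ y → force S R V ψ y
  | .box φ, x => ∀ y, x ≤ y → ∀ z, S y z → force S R V φ z
  | .dia φ, x => ∃ z, R x z ∧ force S R V φ z

/-- Persistent valuations. -/
def Pers (V : ℕ → W → Prop) : Prop := ∀ n x y, x ≤ y → V n x → V n y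

/-- Forward confluence. -/
def Fwd (R : W → W → Prop) : Prop := ∀ x y z, x ≤ y → R x z → ∃ w, z ≤ w ∧ R y w

theorem force_mono {S R : W → W → Prop} {V : ℕ → W → Prop} (hV : Pers V) (hR : Fwd R)
    (φ : Fml) : ∀ x y, x ≤ y → force S R V φ x → force S R V φ y := by
  induction φ with
  | var n => exact fun x y h => hV n x y h
  | bot => exact fun x y _ h => h
  | and φ ψ ih1 ih2 => exact fun x y h h' => ⟨ih1 x y h h'.1, ih2 x y h h'.2⟩
  | or φ ψ ih1 ih2 => exact fun x y h h' => h'.imp (ih1 x y h) (ih2 x y h)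
  | imp φ ψ _ _ => exact fun x y h h' z hz => h' z (h.trans hz)
  | box φ _ => exact fun x y h h' z hz => h' z (h.trans hz)
  | dia φ ih =>
    rintro x y h ⟨z, hz1, hz2⟩
    obtain ⟨w, hw1, hw2⟩ := hR x y z h hz1
    exact ⟨w, hw2, ih z w hw1 hz2⟩

theorem force_subst {S R : W → W → Prop} {V : ℕ → W → Prop} (s : ℕ → Fml) (φ : Fml) :
    ∀ x, force S R V (subst s φ) x ↔ force S R (fun n x => force S R V (s n) x) φ x := by
  induction φ with
  | var n => exact fun x => Iff.rfl
  | bot => exact fun x => Iff.rfl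
  | and φ ψ ih1 ih2 => exact fun x => and_congr (ih1 x) (ih2 x)
  | or φ ψ ih1 ih2 => exact fun x => or_congr (ih1 x) (ih2 x)
  | imp φ ψ ih1 ih2 =>
    exact fun x => forall_congr' fun y => forall_congr' fun _ => imp_congr (ih1 y) (ih2 y)
  | box φ ih =>
    exact fun x => forall_congr' fun y => forall_congr' fun _ => forall_congr' fun z =>
      forall_congr' fun _ => ih z
  | dia φ ih => exact fun x => exists_congr fun z => and_congr_right fun _ => ih z

/-- Validity in a frame. -/
def Valid (S R : W → W → Prop) (φ : Fml) : Prop := ∀ V, Pers V → ∀ x, force S R V φ x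

theorem sound {S R : W → W → Prop} (hR : Fwd R) (hAx : ∀ φ ∈ Ax, Valid S R φ) {φ : Fml}
    (h : Der Ax φ) : Valid S R φ := by
  induction h with
  | ax h => exact hAx _ h
  | k φ ψ => exact fun V hV x y _ h1 z hz _ => force_mono hV hR φ y z hz h1
  | s φ ψ χ =>
    exact fun V hV x y _ h1 z hz h2 u hu h3 =>
      h1 u (hz.trans hu) h3 u le_rfl (h2 u hu h3)
  | andI φ ψ => exact fun V hV x y _ h1 z hz h2 => ⟨force_mono hV hR φ y z hz h1, h2⟩
  | andL φ ψ => exact fun V hV x y _ h => h.1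
  | andR φ ψ => exact fun V hV x y _ h => h.2
  | orL φ ψ => exact fun V hV x y _ h => Or.inl h
  | orR φ ψ => exact fun V hV x y _ h => Or.inr h
  | orE φ ψ χ =>
    exact fun V hV x y _ h1 z hz h2 u hu h3 =>
      h3.elim (h1 u (hz.trans hu)) (h2 u hu)
  | efq φ => exact fun V hV x y _ h => h.elim
  | kbox φ ψ =>
    exact fun V hV x y _ h1 z hz h2 u hu v hv =>
      h1 u (hz.trans hu) v hv v le_rfl (h2 u hu v hv)
  | mp _ _ ih1 ih2 => exact fun V hV x => ih2 V hV x x le_rfl (ih1 V hV x)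
  | nec _ ih => exact fun V hV x y _ z _ => ih V hV z
  | sub s _ ih =>
    intro V hV x
    rw [force_subst]
    exact ih _ (fun n x y hxy => force_mono hV hR (s n) x y hxy) x

/-- `L2` is sound for forward confluent frames. -/
theorem sound_L2 {R : W → W → Prop} (hR : Fwd R) {φ : Fml} (h : φ ∈ L2) : Valid R R φ := by
  refine sound hR ?_ h
  intro φ hφ
  rcases hφ with h | h | h | h
  · subst h
    rintro V hV x y _ h1 z hz ⟨u, hu1, hu2⟩
    exact ⟨u, hu1, h1 z hz u hu1 u le_rfl hu2⟩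
  · subst h
    rintro V hV x y _ ⟨u, _, hu2⟩
    exact hu2
  · subst h
    intro V hV x y _ h1 z hz h2 u hu v hv
    rcases h1 u (hz.trans hu) v hv with h | h
    · exact h2 u hu ⟨v, hv, h⟩ u le_rfl v hv
    · exact h
  · rw [Set.mem_singleton_iff] at h
    subst h
    rintro V hV x y _ ⟨u, hu1, hu2⟩
    rcases hu2 with hu2 | hu2
    · exact Or.inl ⟨u, hu1, hu2⟩
    · exact Or.inr ⟨u, hu1, hu2⟩

end Sem

/-! ### Filtration -/

/-- The game relations. -/
def Q {P T : Type} [Preorder P] [Preorder T] (S : P → T → Prop) : ℕ → P → T → Prop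
  | 0, x, v => S x v
  | j + 1, x, v => S x v ∧ ∀ y, x ≤ y → ∃ w, v ≤ w ∧ Q S j y w

theorem Q_le {P T : Type} [Preorder P] [Preorder T] {S : P → T → Prop} (j : ℕ) :
    ∀ x v, Q S j x v → S x v := by
  cases j with
  | zero => exact fun x v h => h
  | succ j => exact fun x v h => h.1

theorem Q_succ {P T : Type} [Preorder P] [Preorder T] {S : P → T → Prop} (j : ℕ) :
    ∀ x v, Q S (j + 1) x v → Q S j x v := by
  induction j with
  | zero => exact fun x v h => h.1
  | succ j ih =>
    intro x v h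
    refine ⟨h.1, fun y hy => ?_⟩
    obtain ⟨w, hw1, hw2⟩ := h.2 y hy
    exact ⟨w, hw1, ih y w hw2⟩

theorem Q_anti {P T : Type} [Preorder P] [Preorder T] {S : P → T → Prop} {i j : ℕ} (h : i ≤ j) :
    ∀ x v, Q S j x v → Q S i x v := by
  induction h with
  | refl => exact fun x v h => h
  | step _ ih => exact fun x v h => ih x v (Q_succ _ x v h)

/-- The relation on a sum type. -/
def rel {P T : Type} (S : P → T → Prop) : P ⊕ T → P ⊕ T → Prop
  | Sum.inl x, Sum.inr v => S x v
  | _, _ => False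

theorem fwd_empty {W : Type} [Preorder W] : Fwd (fun _ _ : W => False) :=
  fun _ _ _ _ h => h.elim

/-- Closure under subformulas. -/
structure Closed (F : Finset Fml) : Prop where
  and : ∀ φ ψ : Fml, Fml.and φ ψ ∈ F → φ ∈ F ∧ ψ ∈ F
  or : ∀ φ ψ : Fml, Fml.or φ ψ ∈ F → φ ∈ F ∧ ψ ∈ F
  imp : ∀ φ ψ : Fml, Fml.imp φ ψ ∈ F → φ ∈ F ∧ ψ ∈ F
  box : ∀ φ : Fml, Fml.box φ ∈ F → φ ∈ F

section Filtration

variable {P T : Type} [Preorder P] [Preorder T] (S : P → T → Prop)
  (V : ℕ → P ⊕ T → Prop) (F : Finset Fml)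

open Classical in
/-- The type of a point of the second sort. -/
noncomputable def typ (v : T) : Finset Fml :=
  F.filter fun χ => force (rel S) (fun _ _ => False) V χ (Sum.inr v)

/-- The set of types. -/
abbrev Typ : Type := {τ : Finset Fml // ∃ v, typ S V F v = τ}

/-- The type of `v` as a point. -/
noncomputable def mk (v : T) : Typ S V F := ⟨typ S V F v, v, rfl⟩

/-- The accessible types. -/
def S' (x : P) (τ : Typ S V F) : Prop := ∃ v, S x v ∧ mk S V F v ≤ τ

open Classical in
/-- The forward confluent relation. -/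
def Rinf (x : P) (τ : Typ S V F) : Prop := Q (S' S V F) ((F \ τ.1).card + 1) x τ

/-- The valuation. -/
def V' (n : ℕ) : P ⊕ Typ S V F → Prop
  | Sum.inl x => V n (Sum.inl x)
  | Sum.inr τ => var n ∈ τ.1

variable {S V F}

theorem mem_typ {v : T} {χ : Fml} : χ ∈ typ S V F v ↔
    χ ∈ F ∧ force (rel S) (fun _ _ => False) V χ (Sum.inr v) := by
  classical
  unfold typ
  rw [Finset.mem_filter]

theorem mk_mono (hV : Pers V) {v w : T} (h : v ≤ w) : mk S V F v ≤ mk S V F w := by
  intro χ hχ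
  change χ ∈ typ S V F v at hχ
  change χ ∈ typ S V F w
  rw [mem_typ] at hχ ⊢
  exact ⟨hχ.1, force_mono hV fwd_empty χ _ _ (Sum.inr_le_inr_iff.mpr h) hχ.2⟩

theorem Q_mk (hV : Pers V) (j : ℕ) :
    ∀ x v, Q S j x v → Q (S' S V F) j x (mk S V F v) := by
  induction j with
  | zero => exact fun x v h => ⟨v, h, le_rfl⟩
  | succ j ih =>
    intro x v h
    refine ⟨⟨v, h.1, le_rfl⟩, fun y hy => ?_⟩
    obtain ⟨w, hw1, hw2⟩ := h.2 y hy
    exact ⟨mk S V F w, mk_mono hV hw1, ih y w hw2⟩

theorem Rinf_fwd {x y : P} {τ : Typ S V F} (hxy : x ≤ y) (h : Rinf S V F x τ) :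
    ∃ σ, τ ≤ σ ∧ Rinf S V F y σ := by
  classical
  obtain ⟨σ, hσ1, hσ2⟩ := h.2 y hxy
  by_cases hs : σ ≤ τ
  · -- the type does not change
    refine ⟨τ, le_rfl, ?_, fun z hz => h.2 z (hxy.trans hz)⟩
    obtain ⟨v, hv1, hv2⟩ := Q_le _ _ _ hσ2
    exact ⟨v, hv1, hv2.trans hs⟩
  · refine ⟨σ, hσ1, Q_anti ?_ _ _ hσ2⟩
    rw [Nat.add_one_le_iff]
    apply Finset.card_lt_card
    rw [Finset.ssubset_iff_subset_ne]
    have hsub : F \ σ.1 ⊆ F \ τ.1 := Finset.sdiff_subset_sdiff (le_refl F) hσ1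
    refine ⟨hsub, fun heq => hs ?_⟩
    intro χ hχ
    by_contra hne
    have hF : χ ∈ F := by
      obtain ⟨v, hv⟩ := σ.2
      rw [← hv, mem_typ] at hχ
      exact hχ.1
    have : χ ∈ F \ σ.1 := by
      rw [heq]
      exact Finset.mem_sdiff.mpr ⟨hF, hne⟩
    exact (Finset.mem_sdiff.mp this).2 hχ

theorem fwd_rel_Rinf : Fwd (rel (Rinf S V F)) := by
  rintro (x | x) (y | y) (z | z) hxy h
  · exact h.elim
  · obtain ⟨σ, h1, h2⟩ := Rinf_fwd (Sum.inl_le_inl_iff.mp hxy) h
    exact ⟨Sum.inr σ, Sum.inr_le_inr_iff.mpr h1, h2⟩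
  · exact h.elim
  · exact absurd hxy Sum.not_inl_le_inr
  · exact h.elim
  · exact h.elim
  · exact h.elim
  · exact h.elim

theorem pers_V' (hV : Pers V) : Pers (V' S V F) := by
  rintro n (x | x) (y | y) hxy h
  · exact hV n _ _ (Sum.inl_le_inl_iff.mpr (Sum.inl_le_inl_iff.mp hxy)) h
  · exact absurd hxy Sum.not_inl_le_inr
  · exact absurd hxy Sum.not_inr_le_inl
  · exact (Sum.inr_le_inr_iff.mp hxy) h

/-- The truth lemma for the second sort. -/
theorem truth_inr (hV : Pers V) (hF : Closed F) (χ : Fml) : χ ∈ F → DiaFree χ → ∀ τ : Typ S V F,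
    force (rel (Rinf S V F)) (rel (Rinf S V F)) (V' S V F) χ (Sum.inr τ) ↔ χ ∈ τ.1 := by
  induction χ with
  | var n => exact fun _ _ τ => Iff.rfl
  | bot =>
    rintro _ _ ⟨τ, v, rfl⟩
    simp only [force, mem_typ, false_iff, not_and, not_false_eq_true, implies_true]
  | and φ ψ ih1 ih2 =>
    rintro hχ hd ⟨τ, v, rfl⟩
    simp only [force, ih1 (hF.and _ _ hχ).1 hd.1, ih2 (hF.and _ _ hχ).2 hd.2, mem_typ]
    have h1 := (hF.and _ _ hχ).1
    have h2 := (hF.and _ _ hχ).2
    tauto
  | or φ ψ ih1 ih2 =>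
    rintro hχ hd ⟨τ, v, rfl⟩
    simp only [force, ih1 (hF.or _ _ hχ).1 hd.1, ih2 (hF.or _ _ hχ).2 hd.2, mem_typ]
    have h1 := (hF.or _ _ hχ).1
    have h2 := (hF.or _ _ hχ).2
    tauto
  | imp φ ψ ih1 ih2 =>
    rintro hχ hd ⟨τ, v, rfl⟩
    have h1 := (hF.imp _ _ hχ).1
    have h2 := (hF.imp _ _ hχ).2
    constructor
    · intro h
      rw [mem_typ]
      refine ⟨hχ, ?_⟩
      rintro (y | w) hw hφ
      · exact absurd hw Sum.not_inr_le_inl
      · have h3 := h (Sum.inr (mk S V F w))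
          (Sum.inr_le_inr_iff.mpr (mk_mono hV (Sum.inr_le_inr_iff.mp hw)))
          ((ih1 h1 hd.1 _).mpr (mem_typ.mpr ⟨h1, hφ⟩))
        rw [ih2 h2 hd.2] at h3
        exact (mem_typ.mp h3).2
    · rintro h (y | ⟨σ, w, rfl⟩) hw hφ
      · exact absurd hw Sum.not_inr_le_inl
      · rw [ih1 h1 hd.1] at hφ
        rw [ih2 h2 hd.2]
        have h3 : imp φ ψ ∈ typ S V F w := (Sum.inr_le_inr_iff.mp hw) h
        rw [mem_typ] at h3
        refine mem_typ.mpr ⟨h2, h3.2 _ le_rfl (mem_typ.mp hφ).2⟩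
  | box φ ih =>
    rintro hχ hd ⟨τ, v, rfl⟩
    refine ⟨fun _ => mem_typ.mpr ⟨hχ, ?_⟩, fun _ => ?_⟩
    · rintro (y | w) hw z hz
      · exact absurd hw Sum.not_inr_le_inl
      · exact hz.elim
    · rintro (y | w) hw z hz
      · exact absurd hw Sum.not_inr_le_inl
      · exact hz.elim
  | dia φ _ => exact fun _ hd => hd.elim

/-- The truth lemma for the first sort. -/
theorem truth_inl (hV : Pers V) (hF : Closed F)
    (hdense : ∀ x v, S x v → ∃ y v', x ≤ y ∧ v' ≤ v ∧ Q S (F.card + 1) y v')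
    (χ : Fml) : χ ∈ F → DiaFree χ → ∀ x : P,
    (force (rel (Rinf S V F)) (rel (Rinf S V F)) (V' S V F) χ (Sum.inl x) ↔
      force (rel S) (fun _ _ => False) V χ (Sum.inl x)) := by
  classical
  induction χ with
  | var n => exact fun _ _ x => Iff.rfl
  | bot => exact fun _ _ x => Iff.rfl
  | and φ ψ ih1 ih2 =>
    exact fun hχ hd x => and_congr (ih1 (hF.and _ _ hχ).1 hd.1 x) (ih2 (hF.and _ _ hχ).2 hd.2 x)
  | or φ ψ ih1 ih2 =>
    exact fun hχ hd x => or_congr (ih1 (hF.or _ _ hχ).1 hd.1 x) (ih2 (hF.or _ _ hχ).2 hd.2 x)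
  | imp φ ψ ih1 ih2 =>
    intro hχ hd x
    constructor
    · rintro h (y | y) hy hφ
      · have := h (Sum.inl y) (Sum.inl_le_inl_iff.mpr (Sum.inl_le_inl_iff.mp hy))
          ((ih1 (hF.imp _ _ hχ).1 hd.1 y).mpr hφ)
        exact (ih2 (hF.imp _ _ hχ).2 hd.2 y).mp this
      · exact absurd hy Sum.not_inl_le_inr
    · rintro h (y | y) hy hφ
      · have := h (Sum.inl y) (Sum.inl_le_inl_iff.mpr (Sum.inl_le_inl_iff.mp hy))
          ((ih1 (hF.imp _ _ hχ).1 hd.1 y).mp hφ)
        exact (ih2 (hF.imp _ _ hχ).2 hd.2 y).mpr this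
      · exact absurd hy Sum.not_inl_le_inr
  | box φ _ =>
    intro hχ hd x
    have hφ := hF.box _ hχ
    constructor
    · rintro h (y | y) hy (z | z) hz
      · exact hz.elim
      · obtain ⟨y', z', hy', hz', hQ⟩ := hdense y z hz
        have h1 : Rinf S V F y' (mk S V F z') :=
          Q_anti (Nat.add_le_add_right (Finset.card_le_card Finset.sdiff_subset) 1) _ _
            (Q_mk hV _ _ _ hQ)
        have h2 := h (Sum.inl y')
          (Sum.inl_le_inl_iff.mpr ((Sum.inl_le_inl_iff.mp hy).trans hy')) (Sum.inr (mk S V F z')) h1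
        rw [truth_inr hV hF φ hφ hd] at h2
        exact force_mono hV fwd_empty φ _ _ (Sum.inr_le_inr_iff.mpr hz') (mem_typ.mp h2).2
      · exact hz.elim
      · exact hz.elim
    · rintro h (y | y) hy (z | z) hz
      · exact hz.elim
      · rw [truth_inr hV hF φ hφ hd]
        obtain ⟨v, hv1, hv2⟩ := Q_le _ _ _ hz
        refine hv2 (mem_typ.mpr ⟨hφ, ?_⟩)
        exact h (Sum.inl y) (Sum.inl_le_inl_iff.mpr (Sum.inl_le_inl_iff.mp hy)) (Sum.inr v) hv1
      · exact hz.elim
      · exact hz.elim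
  | dia φ _ => exact fun _ hd => hd.elim

theorem valid_of_L2 (S : P → T → Prop) (F : Finset Fml) (hF : Closed F)
    (hdense : ∀ x v, S x v → ∃ y v', x ≤ y ∧ v' ≤ v ∧ Q S (F.card + 1) y v')
    (χ : Fml) (hχ : χ ∈ F) (hd : DiaFree χ) (h : χ ∈ L2) :
    Valid (rel S) (fun _ _ => False) χ := by
  intro V hV x
  have h1 := sound_L2 (fwd_rel_Rinf (S := S) (V := V) (F := F)) h (V' S V F) (pers_V' hV)
  rcases x with x | v
  · exact (truth_inl hV hF hdense χ hχ hd x).mp (h1 _)
  · exact (mem_typ.mp ((truth_inr hV hF χ hχ hd (mk S V F v)).mp (h1 _))).2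

end Filtration

/-- The set of subformulas. -/
def sub : Fml → Finset Fml
  | .var n => {var n}
  | .bot => {bot}
  | .and φ ψ => insert (and φ ψ) (sub φ ∪ sub ψ)
  | .or φ ψ => insert (or φ ψ) (sub φ ∪ sub ψ)
  | .imp φ ψ => insert (imp φ ψ) (sub φ ∪ sub ψ)
  | .box φ => insert (box φ) (sub φ)
  | .dia φ => insert (dia φ) (sub φ)

theorem self_mem_sub (φ : Fml) : φ ∈ sub φ := by
  cases φ <;> simp [sub]

theorem sub_trans (χ : Fml) : ∀ φ ∈ sub χ, sub φ ⊆ sub χ := by
  induction χ with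
  | var n =>
    intro φ hφ
    rw [sub, Finset.mem_singleton] at hφ
    subst hφ
    exact Finset.Subset.refl _
  | bot =>
    intro φ hφ
    rw [sub, Finset.mem_singleton] at hφ
    subst hφ
    exact Finset.Subset.refl _
  | and χ1 χ2 ih1 ih2 =>
    intro φ hφ
    rw [sub, Finset.mem_insert, Finset.mem_union] at hφ
    rcases hφ with rfl | hφ | hφ
    · exact Finset.Subset.refl _
    · exact (ih1 φ hφ).trans (Finset.subset_union_left.trans (Finset.subset_insert _ _))
    · exact (ih2 φ hφ).trans (Finset.subset_union_right.trans (Finset.subset_insert _ _))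
  | or χ1 χ2 ih1 ih2 =>
    intro φ hφ
    rw [sub, Finset.mem_insert, Finset.mem_union] at hφ
    rcases hφ with rfl | hφ | hφ
    · exact Finset.Subset.refl _
    · exact (ih1 φ hφ).trans (Finset.subset_union_left.trans (Finset.subset_insert _ _))
    · exact (ih2 φ hφ).trans (Finset.subset_union_right.trans (Finset.subset_insert _ _))
  | imp χ1 χ2 ih1 ih2 =>
    intro φ hφ
    rw [sub, Finset.mem_insert, Finset.mem_union] at hφ
    rcases hφ with rfl | hφ | hφ
    · exact Finset.Subset.refl _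
    · exact (ih1 φ hφ).trans (Finset.subset_union_left.trans (Finset.subset_insert _ _))
    · exact (ih2 φ hφ).trans (Finset.subset_union_right.trans (Finset.subset_insert _ _))
  | box χ ih =>
    intro φ hφ
    rw [sub, Finset.mem_insert] at hφ
    rcases hφ with rfl | hφ
    · exact Finset.Subset.refl _
    · exact (ih φ hφ).trans (Finset.subset_insert _ _)
  | dia χ ih =>
    intro φ hφ
    rw [sub, Finset.mem_insert] at hφ
    rcases hφ with rfl | hφ
    · exact Finset.Subset.refl _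
    · exact (ih φ hφ).trans (Finset.subset_insert _ _)

theorem closed_sub (χ : Fml) : Closed (sub χ) where
  and φ ψ h := ⟨sub_trans χ _ h (by rw [sub]; simp [self_mem_sub]),
    sub_trans χ _ h (by rw [sub]; simp [self_mem_sub])⟩
  or φ ψ h := ⟨sub_trans χ _ h (by rw [sub]; simp [self_mem_sub]),
    sub_trans χ _ h (by rw [sub]; simp [self_mem_sub])⟩
  imp φ ψ h := ⟨sub_trans χ _ h (by rw [sub]; simp [self_mem_sub]),
    sub_trans χ _ h (by rw [sub]; simp [self_mem_sub])⟩
  box φ h := sub_trans χ _ h (by rw [sub]; simp [self_mem_sub])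

/-! ### The frames `M n` -/

/-- Binary words of length at most `n`; a word is extended on the left. -/
@[ext] structure T (n : ℕ) : Type where
  /-- The word. -/
  val : List Bool
  len : val.length ≤ n

instance (n : ℕ) : Preorder (T n) where
  le u w := u.1 <:+ w.1
  le_refl u := List.suffix_refl _
  le_trans _ _ _ h1 h2 := h1.trans h2

theorem T_le {n : ℕ} {u w : T n} : u ≤ w ↔ u.1 <:+ w.1 := Iff.rfl

/-- The worlds of the first sort. -/
inductive P (n : ℕ) : Type
  | zero : P n
  | f : T n → P n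
  | t : T n → P n

/-- The order on the worlds of the first sort. -/
def P.le {n : ℕ} : P n → P n → Prop
  | P.zero, _ => True
  | P.f v, P.f w => v ≤ w
  | P.f v, P.t w => v ≤ w
  | P.t v, P.t w => v = w
  | _, _ => False

instance (n : ℕ) : Preorder (P n) where
  le := P.le
  le_refl x := by
    cases x with
    | zero => trivial
    | f w => exact le_refl w
    | t w => exact (rfl : w = w)
  le_trans x y z h1 h2 := by
    cases x with
    | zero => trivial
    | f u =>
      cases y with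
      | zero => exact h1.elim
      | f v =>
        cases z with
        | zero => exact h2.elim
        | f w => exact le_trans (show u ≤ v from h1) h2
        | t w => exact le_trans (show u ≤ v from h1) h2
      | t v =>
        cases z with
        | zero => exact h2.elim
        | f w => exact h2.elim
        | t w =>
          have : v = w := h2
          subst this
          exact h1
    | t u =>
      cases y with
      | zero => exact h1.elim
      | f v => exact h1.elim
      | t v =>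
        have : u = v := h1
        subst this
        exact h2

/-- The accessibility relation. -/
def S0 {n : ℕ} : P n → T n → Prop
  | P.zero, _ => True
  | P.f w, v => ¬ v ≤ w
  | P.t w, v => ¬ v ≤ w

/-- A sufficient condition for all game relations to hold. -/
theorem Q_top {n : ℕ} (j : ℕ) (u v : T n) (h : ¬ v ≤ u) : Q S0 j (P.t u) v := by
  induction j with
  | zero => exact h
  | succ j ih =>
    refine ⟨h, fun y hy => ?_⟩
    cases y with
    | zero => exact hy.elim
    | f w => exact hy.elim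
    | t w =>
      have : u = w := hy
      subst this
      exact ⟨v, le_rfl, ih⟩

theorem Q_safe {n : ℕ} (j : ℕ) : ∀ (u v : T n), (∀ u', u ≤ u' → ¬ v ≤ u') → Q S0 j (P.f u) v := by
  induction j with
  | zero => exact fun u v h => h u le_rfl
  | succ j ih =>
    intro u v h
    refine ⟨h u le_rfl, fun y hy => ?_⟩
    cases y with
    | zero => exact hy.elim
    | f w => exact ⟨v, le_rfl, ih w v fun u' hu' => h u' (le_trans (show u ≤ w from hy) hu')⟩
    | t w => exact ⟨v, le_rfl, Q_top j w v (h w hy)⟩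

/-- The node below which the word `w` is attached. -/
def par {n : ℕ} : (w : List Bool) → w.length ≤ n → P n
  | [], _ => P.zero
  | _ :: v, h => P.f ⟨v, by simp only [List.length_cons] at h; omega⟩

theorem strict_suffix {w u : List Bool} (h : w <:+ u) (hne : w ≠ u) :
    ∃ a, (a :: w) <:+ u := by
  obtain ⟨s, rfl⟩ := h
  rcases List.eq_nil_or_concat s with rfl | ⟨s', a, rfl⟩
  · simp at hne
  · exact ⟨a, s', by simp⟩

theorem not_both {a b : Bool} {w u : List Bool} (h1 : (a :: w) <:+ u) (h2 : (b :: w) <:+ u) :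
    a = b := by
  have h3 : (a :: w) = (b :: w) := by
    have := List.suffix_of_suffix_length_le h1 h2 (by simp)
    exact this.eq_of_length (by simp)
  exact (List.cons.inj h3).1

theorem Q_par {n : ℕ} (j : ℕ) : ∀ (w : List Bool) (hw : w.length + j ≤ n),
    Q S0 j (par (n := n) w (by omega)) ⟨w, by omega⟩ := by
  induction j with
  | zero =>
    intro w hw
    cases w with
    | nil => trivial
    | cons a v =>
      change ¬ ((a :: v) <:+ v)
      intro h
      have := h.length_le
      simp at this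
  | succ j ih =>
    intro w hw
    have h0 := ih w (by omega)
    refine ⟨Q_le _ _ _ h0, fun y hy => ?_⟩
    -- the case `w ≤ u`
    have hcase : ∀ u : T n, w <:+ u.1 → ∃ w' : T n, (⟨w, by omega⟩ : T n) ≤ w' ∧
        Q S0 j (P.f u) w' := by
      intro u hwu
      by_cases heq : w = u.1
      · have h1 := ih (false :: w) (by simp only [List.length_cons]; omega)
        refine ⟨⟨false :: w, by simp only [List.length_cons]; omega⟩, ?_, ?_⟩
        · exact List.suffix_cons _ _
        · have : u = ⟨w, by omega⟩ := T.ext heq.symm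
          rw [this]
          exact h1
      · obtain ⟨a, ha⟩ := strict_suffix hwu heq
        refine ⟨⟨(!a) :: w, by simp only [List.length_cons]; omega⟩, List.suffix_cons _ _,
          Q_safe j _ _ ?_⟩
        intro u' hu' h
        have h2 : (a :: w) <:+ u'.1 := ha.trans hu'
        have h3 := not_both h2 h
        cases a <;> simp at h3
    cases y with
    | zero =>
      cases w with
      | nil => exact ⟨⟨[], by omega⟩, le_rfl, h0⟩
      | cons a v => exact hy.elim
    | t u =>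
      by_cases h1 : (false :: w) <:+ u.1
      · refine ⟨⟨true :: w, by simp only [List.length_cons]; omega⟩, List.suffix_cons _ _,
          Q_top j _ _ fun h => ?_⟩
        have := not_both h1 h
        simp at this
      · exact ⟨⟨false :: w, by simp only [List.length_cons]; omega⟩, List.suffix_cons _ _,
          Q_top j _ _ h1⟩
    | f u =>
      by_cases hwu : w <:+ u.1
      · exact hcase u hwu
      · cases w with
        | nil => exact absurd (List.nil_suffix) hwu
        | cons a v =>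
          have hvu : v <:+ u.1 := hy
          refine ⟨⟨a :: v, by omega⟩, le_rfl, ?_⟩
          by_cases heq : v = u.1
          · have : u = ⟨v, by simp only [List.length_cons] at hw; omega⟩ := T.ext heq.symm
            rw [this]
            exact h0
          · obtain ⟨b, hb⟩ := strict_suffix hvu heq
            refine Q_safe j _ _ ?_
            intro u' hu' h
            have h2 : (b :: v) <:+ u'.1 := hb.trans hu'
            have h3 := not_both h2 h
            subst h3
            exact hwu hb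

theorem dense {n j : ℕ} (hj : j ≤ n) (x : P n) (v : T n) (h : S0 x v) :
    ∃ y v', x ≤ y ∧ v' ≤ v ∧ Q S0 j y v' := by
  cases x with
  | zero =>
    refine ⟨P.zero, ⟨[], by simp⟩, le_rfl, List.nil_suffix, ?_⟩
    exact Q_par j [] (by simpa using hj)
  | f w => exact ⟨P.t w, v, le_refl w, le_rfl, Q_top j w v h⟩
  | t w => exact ⟨P.t w, v, le_rfl, le_rfl, Q_top j w v h⟩

/-! ### The theorems of `L2` that fail in `M n` -/

/-- The variable for the word `w`. -/
def pv (w : List Bool) : Fml := var (2 * Encodable.encode w)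

/-- The variable `q`. -/
def qv : Fml := var 1

/-- The formulas implied by `◇ p_w`. -/
def E : ℕ → List Bool → Fml
  | 0, w => neg (box (neg (pv w)))
  | k + 1, w => imp (box (imp (pv w) (or (pv (false :: w)) (pv (true :: w)))))
      (or (E k (false :: w)) (E k (true :: w)))

/-- The formulas that separate. -/
def psi (n : ℕ) : Fml := imp (box (or (pv []) qv)) (imp (imp (E n []) (box qv)) (box qv))

theorem diaFree_E (k : ℕ) : ∀ w, DiaFree (E k w) := by
  induction k with
  | zero => intro w; simp [E, neg, DiaFree, pv]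
  | succ k ih => intro w; simp [E, DiaFree, pv, ih]

theorem diaFree_psi (n : ℕ) : DiaFree (psi n) := by
  simp [psi, DiaFree, pv, qv, diaFree_E]

theorem prv_E (k : ℕ) : ∀ (w : List Bool) (Γ : Set Fml),
    Prv {Kdia, Ndia, wCD, Cdia} Γ (imp (dia (pv w)) (E k w)) := by
  induction k with
  | zero => exact fun w Γ => dia_imp (by simp) (by simp) _
  | succ k ih =>
    intro w Γ
    refine Prv.ded (Prv.ded ?_)
    have h1 : Prv {Kdia, Ndia, wCD, Cdia}
        (insert (box (imp (pv w) (or (pv (false :: w)) (pv (true :: w)))))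
          (insert (dia (pv w)) Γ)) (dia (or (pv (false :: w)) (pv (true :: w)))) :=
      Prv.kdia (by simp) (Prv.hyp (Or.inl rfl)) (Prv.hyp (Or.inr (Or.inl rfl)))
    refine Prv.orE (Prv.cdia (by simp) h1) ?_ ?_
    · exact Prv.orL (Prv.mp (Prv.hyp (Or.inl rfl)) (ih _ _))
    · exact Prv.orR (Prv.mp (Prv.hyp (Or.inl rfl)) (ih _ _))

theorem psi_mem (n : ℕ) : psi n ∈ L2 := by
  refine Prv.toDer (Prv.ded (Prv.ded ?_))
  refine Prv.wcd (by simp) (a := pv []) (Prv.hyp (Or.inr (Or.inl rfl))) (Prv.ded ?_)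
  refine Prv.mp (φ := E n []) ?_ (Prv.hyp (Or.inr (Or.inl rfl)))
  exact Prv.mp (Prv.hyp (Or.inl rfl)) (prv_E n [] _)

/-- The valuation. -/
def V0 (n : ℕ) (m : ℕ) : P n ⊕ T n → Prop
  | Sum.inl _ => False
  | Sum.inr v => (∃ w : List Bool, m = 2 * Encodable.encode w ∧ w <:+ v.1) ∨ (m = 1 ∧ v.1 ≠ [])

theorem pers_V0 (n : ℕ) : Pers (V0 n) := by
  rintro m (x | x) (y | y) hxy h
  · exact h.elim
  · exact h.elim
  · exact absurd hxy Sum.not_inr_le_inl
  · have hxy' : x.1 <:+ y.1 := Sum.inr_le_inr_iff.mp hxy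
    rcases h with ⟨w, h1, h2⟩ | ⟨h1, h2⟩
    · exact Or.inl ⟨w, h1, h2.trans hxy'⟩
    · refine Or.inr ⟨h1, fun h3 => h2 ?_⟩
      rw [h3] at hxy'
      exact List.suffix_nil.mp hxy'

theorem force_pv {n : ℕ} (S R : P n ⊕ T n → P n ⊕ T n → Prop) (w : List Bool) (v : T n) :
    force S R (V0 n) (pv w) (Sum.inr v) ↔ w <:+ v.1 := by
  constructor
  · rintro (⟨w', h1, h2⟩ | ⟨h1, h2⟩)
    · have : w = w' := by
        apply Encodable.encode_injective
        omega
      rwa [this]
    · omega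
  · intro h
    exact Or.inl ⟨w, rfl, h⟩

theorem force_qv {n : ℕ} (S R : P n ⊕ T n → P n ⊕ T n → Prop) (v : T n) :
    force S R (V0 n) qv (Sum.inr v) ↔ v.1 ≠ [] := by
  constructor
  · rintro (⟨w', h1, h2⟩ | ⟨h1, h2⟩)
    · omega
    · exact h2
  · intro h
    exact Or.inr ⟨rfl, h⟩

theorem not_force_E {n : ℕ} (k : ℕ) : ∀ (w : List Bool) (hw : w.length + k = n),
    ¬ force (rel S0) (fun _ _ => False) (V0 n) (E k w)
      (Sum.inl (par (n := n) w (by omega))) := by
  have hpar : ∀ (w : List Bool) (hw : w.length ≤ n),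
      (Sum.inl (par (n := n) w hw) : P n ⊕ T n) ≤ Sum.inl (P.f ⟨w, hw⟩) := by
    intro w hw
    rw [Sum.inl_le_inl_iff]
    cases w with
    | nil => trivial
    | cons a v => exact List.suffix_cons a v
  -- words accessible above `f w` are not below `w`
  have hacc : ∀ (w : T n) (y : P n) (z : T n), P.f w ≤ y → S0 y z → ¬ z ≤ w := by
    intro w y z h1 h2 h3
    cases y with
    | zero => exact h1.elim
    | f u => exact h2 (le_trans h3 (show w ≤ u from h1))
    | t u => exact h2 (le_trans h3 (show w ≤ u from h1))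
  induction k with
  | zero =>
    intro w hw h
    refine h (Sum.inl (P.f ⟨w, by omega⟩)) (hpar w _) ?_
    rintro (y | y) hy (z | z) hz
    · exact hz.elim
    · rintro (u | u) hu hp
      · exact absurd hu Sum.not_inr_le_inl
      · rw [force_pv] at hp
        have h1 := hacc ⟨w, by omega⟩ y z (Sum.inl_le_inl_iff.mp hy) hz
        apply h1
        have h2 : w = u.1 := hp.eq_of_length (by
          have := hp.length_le
          have := u.2
          omega)
        have h3 : z.1 <:+ u.1 := Sum.inr_le_inr_iff.mp hu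
        change z.1 <:+ w
        rw [h2]
        exact h3
    · exact hz.elim
    · exact hz.elim
  | succ k ih =>
    intro w hw h
    have h1 := h (Sum.inl (P.f ⟨w, by omega⟩)) (hpar w _) ?_
    · rcases h1 with h1 | h1
      · exact ih (false :: w) (by simp only [List.length_cons]; omega) h1
      · exact ih (true :: w) (by simp only [List.length_cons]; omega) h1
    · rintro (y | y) hy (z | z) hz
      · exact hz.elim
      · rintro (u | u) hu hp
        · exact absurd hu Sum.not_inr_le_inl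
        · rw [force_pv] at hp
          have h1 := hacc ⟨w, by omega⟩ y z (Sum.inl_le_inl_iff.mp hy) hz
          have h3 : z.1 <:+ u.1 := Sum.inr_le_inr_iff.mp hu
          have h4 : w ≠ u.1 := by
            intro h4
            apply h1
            change z.1 <:+ w
            rw [h4]
            exact h3
          obtain ⟨a, ha⟩ := strict_suffix hp h4
          cases a with
          | false => exact Or.inl ((force_pv _ _ _ _).mpr ha)
          | true => exact Or.inr ((force_pv _ _ _ _).mpr ha)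
      · exact hz.elim
      · exact hz.elim

theorem not_valid_psi (n : ℕ) :
    ¬ Valid (rel (S0 (n := n))) (fun _ _ => False) (psi n) := by
  intro h
  have h0 := h (V0 n) (pers_V0 n) (Sum.inl P.zero) (Sum.inl P.zero) le_rfl ?_
    (Sum.inl P.zero) le_rfl ?_ (Sum.inl P.zero) le_rfl (Sum.inr ⟨[], by simp⟩) trivial
  · rw [force_qv] at h0
    exact h0 rfl
  · rintro (y | y) hy (z | z) hz
    · exact hz.elim
    · exact Or.inl ((force_pv _ _ _ _).mpr List.nil_suffix)
    · exact hz.elim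
    · exact hz.elim
  · rintro (y | y) hy hE
    · by_cases hy0 : y = P.zero
      · subst hy0
        exact absurd hE (not_force_E n [] (by simp))
      · rintro (x | x) hx (z | z) hz
        · exact hz.elim
        · rw [force_qv]
          intro hnil
          have hx' : y ≤ x := Sum.inl_le_inl_iff.mp hx
          have hz' : S0 x z := hz
          cases x with
          | zero =>
            cases y with
            | zero => exact hy0 rfl
            | f u => exact hx'.elim
            | t u => exact hx'.elim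
          | f u =>
            apply hz'
            change z.1 <:+ u.1
            rw [hnil]
            exact List.nil_suffix
          | t u =>
            apply hz'
            change z.1 <:+ u.1
            rw [hnil]
            exact List.nil_suffix
        · exact hz.elim
        · exact hz.elim
    · exact absurd hy Sum.not_inl_le_inr

theorem not_finAx_L2 : ¬ FragmentFinAx L2 := by
  rintro ⟨X, hX, hd, h⟩
  obtain ⟨n, hn⟩ : ∃ n, ∀ χ ∈ X, (sub χ).card + 1 ≤ n := by
    refine ⟨∑ χ ∈ hX.toFinset, ((sub χ).card + 1), fun χ hχ => ?_⟩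
    exact Finset.single_le_sum (f := fun χ => (sub χ).card + 1) (fun _ _ => Nat.zero_le _)
      (hX.mem_toFinset.mpr hχ)
  have hval : ∀ χ ∈ X, Valid (rel (S0 (n := n))) (fun _ _ => False) χ := by
    intro χ hχ
    refine valid_of_L2 S0 (sub χ) (closed_sub χ) (fun x v hxv => dense (hn χ hχ) x v hxv) χ
      (self_mem_sub χ) (hd χ hχ) ?_
    exact (h χ (hd χ hχ)).mpr (Der.ax hχ)
  exact not_valid_psi n (sound fwd_empty hval ((h _ (diaFree_psi n)).mp (psi_mem n)))

/-- The diamond-free fragment of `L1` is finitely axiomatisable, the diamond-free fragment of `L2`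
is not, and some diamond-free theorem of `L2` is not a theorem of `L1`. -/
theorem result :
    FragmentFinAx L1 ∧ ¬ FragmentFinAx L2 ∧ ∃ φ, DiaFree φ ∧ φ ∈ L2 ∧ φ ∉ L1 := by
  refine ⟨finAx_L1, not_finAx_L2, ?_⟩
  by_contra hcon
  push Not at hcon
  obtain ⟨X, hX, hd, h⟩ := finAx_L1
  refine not_finAx_L2 ⟨X, hX, hd, fun φ hφ => ?_⟩
  rw [← h φ hφ]
  exact ⟨fun h2 => hcon φ hφ h2, fun h1 => L1_sub_L2 h1⟩

end Pool.Agent.Results.MP_1f55c7_lc.BoxFragments
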